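import Pool.Agent.P.MP_2232d5_co.LimC

open Pool.Agent.P.MP_2232d5_co Filter in
theorem Pool.Agent.Results.MP_2232d5_co.FiniteLower.result (S : Finset ℕ) (y : ℕ → ℕ)
    (hS : ∀ i, y i ∈ S) (hy : IsSquarefree y) : ∃ᶠ n : ℕ in atTop,
      ((2 * n + Nat.log 2 (Nat.log 2 n) / (40 * S.card + 7) : ℕ) : ℕ∞) < nsc y n :=
  excess_lower hy hS le_rfl
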