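import Pool.Agent.P.MP_2232d5_co.Main

open Pool.Agent.P.MP_2232d5_co in
theorem Pool.Agent.Results.MP_2232d5_co.RulerUnique.result
    (x : ℕ → ℕ) (hx : ∀ k : ℕ, (List.range (zimin k).length).map x = zimin k) (y : ℕ → ℕ) :
    (IsSquarefree y ∧ ∀ n : ℕ, 1 ≤ n → nsc y n ≤ 2 * (n : ℕ∞)) ↔
      ∃ σ : ℕ → ℕ, Function.Injective σ ∧ (Function.Surjective y → Function.Bijective σ) ∧
        y = σ ∘ x := by
  rw [Pool.Agent.P.MP_2232d5_co.main x hx y]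
  constructor
  · rintro ⟨σ, h1, h2⟩
    exact ⟨σ, h1, fun hs => ⟨h1, Function.Surjective.of_comp (h2 ▸ hs)⟩, h2⟩
  · rintro ⟨σ, h1, _, h2⟩
    exact ⟨σ, h1, h2⟩
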