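import Pool.Agent.P.MP_2232d5_co.LimB

open Pool.Agent.P.MP_2232d5_co in
theorem Pool.Agent.Results.MP_2232d5_co.TernaryUpper.result :
    ∃ y : ℕ → ℕ, (∀ i, y i < 3) ∧ IsSquarefree y ∧ ∀ n : ℕ, 4 ≤ n →
      nsc y n ≤ ((2 * n + 8000 * Nat.log 2 (Nat.log 2 n) : ℕ) : ℕ∞) :=
  exists_upper (Set.Iio 3) (by rw [← Finset.coe_range, Set.encard_coe_eq_coe_finsetCard]; simp)
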